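import Pool.Agent.helper57.DH.SpecL

/-! # d2:LBM (MP_5823cb_al): closure properties of the class BM (helper46) -/

set_option autoImplicit false

open Filter Topology MeasureTheory
open scoped commutatorElement

namespace Pool.Agent.helper90.DH

open Pool.Agent.helper64.D2

theorem LBM_add (f g : ℝ → ℝ) (hf : BM f) (hg : BM g) :
    BM (fun x => f x + g x) ∧ BM (fun x => f x - g x) ∧ BM (fun x => f x * g x) := by
  obtain ⟨f1, ⟨B, f2⟩, f3⟩ := hf
  obtain ⟨g1, ⟨B', g2⟩, g3⟩ := hg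
  have hB : 0 ≤ B := (abs_nonneg _).trans (f2 0)
  refine ⟨⟨f1.add g1, ⟨B + B', fun x => ?_⟩, fun x hx => ?_⟩, ⟨f1.sub g1, ⟨B + B', fun x => ?_⟩, fun x hx => ?_⟩,
    ⟨f1.mul g1, ⟨B * B', fun x => ?_⟩, fun x hx => ?_⟩⟩
  · exact (abs_add_le _ _).trans (add_le_add (f2 x) (g2 x))
  · show f x + g x = 0
    rw [f3 x hx, g3 x hx, add_zero]
  · exact (abs_sub _ _).trans (add_le_add (f2 x) (g2 x))
  · show f x - g x = 0
    rw [f3 x hx, g3 x hx, sub_zero]
  · show |f x * g x| ≤ B * B'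
    rw [abs_mul]
    exact mul_le_mul (f2 x) (g2 x) (abs_nonneg _) hB
  · show f x * g x = 0
    rw [f3 x hx, zero_mul]

theorem LBM_smul (a : ℝ) (f : ℝ → ℝ) (hf : BM f) : BM (fun x => a * f x) ∧ BM (fun x => |f x|) ∧ Integrable f := by
  obtain ⟨f1, ⟨B, f2⟩, f3⟩ := hf
  refine ⟨⟨f1.const_mul a, ⟨|a| * B, fun x => ?_⟩, fun x hx => ?_⟩, ⟨f1.norm, ⟨B, fun x => ?_⟩, fun x hx => ?_⟩, ?_⟩
  · rw [abs_mul]
    exact mul_le_mul_of_nonneg_left (f2 x) (abs_nonneg _)
  · show a * f x = 0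
    rw [f3 x hx, mul_zero]
  · rw [abs_abs]
    exact f2 x
  · show |f x| = 0
    rw [f3 x hx, abs_zero]
  · rw [← integrableOn_iff_integrable_of_support_subset (s := Set.Icc (0 : ℝ) 1) (by
      intro x hx
      by_contra h
      exact hx (f3 x h))]
    exact Measure.integrableOn_of_bounded (by rw [Real.volume_Icc]; exact ENNReal.ofReal_ne_top) f1.aestronglyMeasurable
      (M := B) (Filter.Eventually.of_forall f2)

theorem LBM_mem (s : ℕ) (x : ℝ) : x ∈ cell s (ci s x) := by
  have h : (0 : ℝ) < 2 ^ s := by positivity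
  unfold cell ci
  rw [Set.mem_Ico, div_le_iff₀ h, lt_div_iff₀ h]
  have h1 := Int.floor_le ((2 : ℝ) ^ s * x)
  have h2 := Int.lt_floor_add_one ((2 : ℝ) ^ s * x)
  constructor <;> linarith

theorem LBM_ci (s : ℕ) (k : ℤ) (x : ℝ) (hx : x ∈ cell s k) : ci s x = k := by
  have h : (0 : ℝ) < 2 ^ s := by positivity
  unfold cell at hx
  rw [Set.mem_Ico, div_le_iff₀ h, lt_div_iff₀ h] at hx
  unfold ci
  rw [Int.floor_eq_iff]
  constructor <;> linarith [hx.1, hx.2]

theorem LBM_ci_meas (s : ℕ) : Measurable (ci s) := Int.measurable_floor.comp (measurable_const_mul _)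

theorem LBM_PA (s : ℕ) (f : ℝ → ℝ) (hf : PA s f) (h0 : ∀ x, x ∉ Set.Icc (0 : ℝ) 1 → f x = 0) : BM f := by
  choose a b hab using hf
  have hform : f = fun x => a (ci s x) + b (ci s x) * x := by
    funext x
    exact hab (ci s x) x (LBM_mem s x)
  have hma : Measurable (fun x => a (ci s x)) := (measurable_of_countable a).comp (LBM_ci_meas s)
  have hmb : Measurable (fun x => b (ci s x)) := (measurable_of_countable b).comp (LBM_ci_meas s)
  refine ⟨?_, ⟨∑ k ∈ Finset.Icc (0 : ℤ) (2 ^ s), (|a k| + |b k|), fun x => ?_⟩, h0⟩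
  · rw [hform]
    exact hma.add (hmb.mul measurable_id)
  · by_cases hx : x ∈ Set.Icc (0 : ℝ) 1
    · have hk : ci s x ∈ Finset.Icc (0 : ℤ) (2 ^ s) := by
        rw [Finset.mem_Icc]
        unfold ci
        have h2 : (0 : ℝ) < 2 ^ s := by positivity
        constructor
        · apply Int.floor_nonneg.2
          exact mul_nonneg h2.le hx.1
        · have h3 : (2 : ℝ) ^ s * x ≤ 2 ^ s := by nlinarith [hx.2]
          have h4 : ((⌊(2 : ℝ) ^ s * x⌋ : ℤ) : ℝ) ≤ ((2 ^ s : ℤ) : ℝ) := by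
            push_cast
            exact (Int.floor_le _).trans h3
          exact_mod_cast h4
      have h5 : |f x| ≤ |a (ci s x)| + |b (ci s x)| := by
        rw [hform]
        refine (abs_add_le _ _).trans ?_
        rw [abs_mul, abs_of_nonneg hx.1]
        have := mul_le_mul_of_nonneg_left hx.2 (abs_nonneg (b (ci s x)))
        linarith
      exact h5.trans (Finset.single_le_sum (f := fun k => |a k| + |b k|) (fun k _ => by positivity) hk)
    · rw [h0 x hx, abs_zero]
      exact Finset.sum_nonneg (fun k _ => by positivity)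

theorem LBM_EsPA (s : ℕ) (f : ℝ → ℝ) : PA s (Es s f) := by
  intro k
  refine ⟨2 ^ s * (∫ t in cell s k, f t) - 12 * 2 ^ (3 * s) * (((k : ℝ) + 1 / 2) / 2 ^ s) * ∫ t in cell s k, (t - ((k : ℝ) + 1 / 2) / 2 ^ s) * f t,
    12 * 2 ^ (3 * s) * ∫ t in cell s k, (t - ((k : ℝ) + 1 / 2) / 2 ^ s) * f t, ?_⟩
  intro x hx
  have h := LBM_ci s k x hx
  unfold Es mid
  rw [h]
  ring

theorem LBM_Es0 (s : ℕ) (f : ℝ → ℝ) (hf : ∀ x, x ∉ Set.Icc (0 : ℝ) 1 → f x = 0) (x : ℝ) (hx : x ∉ Set.Icc (0 : ℝ) 1) :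
    Es s f x = 0 := by
  have h2 : (0 : ℝ) < 2 ^ s := by positivity
  have hcell : ∀ t ∈ cell s (ci s x), t ≠ 1 → f t = 0 := by
    intro t ht ht1
    apply hf
    intro hmem
    have h3 := LBM_ci s _ t ht
    rw [Set.mem_Icc, not_and_or, not_le, not_le] at hx
    rcases hx with hx | hx
    · have h4 : ci s x < 0 := by
        unfold ci
        rw [Int.floor_lt]
        push_cast
        exact mul_neg_of_pos_of_neg h2 hx
      have h5 : 0 ≤ ci s t := by
        unfold ci
        exact Int.floor_nonneg.2 (mul_nonneg h2.le hmem.1)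
      omega
    · have h4 : (2 : ℤ) ^ s ≤ ci s x := by
        unfold ci
        rw [Int.le_floor]
        push_cast
        nlinarith
      have h5 : ci s t < 2 ^ s := by
        unfold ci
        rw [Int.floor_lt]
        push_cast
        have : t < 1 := lt_of_le_of_ne hmem.2 ht1
        nlinarith
      omega
  have hae : ∀ᵐ t : ℝ, t ≠ 1 := by
    rw [ae_iff]
    simp
  have e1 : ∫ t in cell s (ci s x), f t = 0 := by
    apply setIntegral_eq_zero_of_ae_eq_zero
    filter_upwards [hae] with t ht hm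
    exact hcell t hm ht
  have e2 : ∫ t in cell s (ci s x), (t - mid s x) * f t = 0 := by
    apply setIntegral_eq_zero_of_ae_eq_zero
    filter_upwards [hae] with t ht hm
    rw [hcell t hm ht, mul_zero]
  unfold Es
  rw [e1, e2]
  ring

theorem LBM_ev (c : DD) (f : ℝ → ℝ) (hf : BM f) : BM (fun x => f (ev c x)) := by
  obtain ⟨f1, ⟨B, f2⟩, f3⟩ := hf
  obtain ⟨h1, _, _, h4⟩ := c.2
  have hc : Continuous (ev c) := h1.continuous
  refine ⟨f1.comp hc.measurable, ⟨B, fun x => f2 _⟩, fun x hx => ?_⟩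
  show f (ev c x) = 0
  have : ev c x = x := h4 x (fun h => hx ⟨h.1.le, h.2.le⟩)
  rw [this]
  exact f3 x hx

theorem LBM : LBM_stmt := by
  refine ⟨LBM_add, LBM_smul, LBM_PA, ?_, LBM_ev, ?_⟩
  · intro s f hf
    have hEs : ∀ r : ℕ, BM (Es r f) := fun r => LBM_PA r _ (LBM_EsPA r f) (fun x hx => LBM_Es0 r f hf.2.2 x hx)
    refine ⟨hEs s, (LBM_add _ _ (hEs (s + 1)) (hEs s)).2.1, ?_⟩
    obtain ⟨f1, ⟨B, f2⟩, f3⟩ := hf
    refine ⟨?_, ⟨1 * B, fun x => ?_⟩, fun x hx => ?_⟩
    · have hm : Measurable (fr s) := measurable_fract.comp (measurable_const_mul _)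
      exact hm.mul f1
    · show |fr s x * f x| ≤ 1 * B
      rw [abs_mul]
      refine mul_le_mul ?_ (f2 x) (abs_nonneg _) zero_le_one
      unfold fr
      rw [abs_of_nonneg (Int.fract_nonneg _)]
      exact (Int.fract_lt_one _).le
    · show fr s x * f x = 0
      rw [f3 x hx, mul_zero]
  · intro q c f hf
    have hsum : ∀ n : ℕ, BM (fun x => ∑ i ∈ Finset.range n, f (ev (c i) x)) := by
      intro n
      induction n with
      | zero =>
        refine ⟨by simp, ⟨0, fun x => by simp⟩, fun x _ => by simp⟩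
      | succ n ih =>
        have h1 := (LBM_add _ _ ih (LBM_ev (c n) f hf)).1
        have h2 : (fun x => ∑ i ∈ Finset.range (n + 1), f (ev (c i) x)) =
            fun x => (∑ i ∈ Finset.range n, f (ev (c i) x)) + f (ev (c n) x) := by
          funext x
          rw [Finset.sum_range_succ]
        rw [h2]
        exact h1
    have h3 := (LBM_smul ((q : ℝ)⁻¹) _ (hsum q)).1
    have h4 : Mop q c f = fun x => (q : ℝ)⁻¹ * ∑ i ∈ Finset.range q, f (ev (c i) x) := by
      funext x
      unfold Mop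
      rw [div_eq_inv_mul]
    rw [h4]
    exact h3

end Pool.Agent.helper90.DH
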